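import Mathlib
import Pool.Agent.Y696.CTE.Stm

/-!
# Project CTE, task CTE-GAL: the Galois group and the Frobenius automorphisms of `K(θ)/K`
-/

set_option autoImplicit false
set_option linter.unusedSectionVars false

open scoped Classical IntermediateField

namespace Pool.Agent.Y983.CTE

open NumberField IsDedekindDomain Polynomial
open Pool.Agent.Y692.QS (Ei w nr toC w_sq w_cube)
open Pool.Agent.Y715.T.Rec (cs nn)
open Pool.Agent.Y696.CTE

section basic

variable {K F : Type} [Field K] [NumberField K] [Field F] [NumberField F] [Algebra K F]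
  (j : Ei ≃+* 𝓞 K) {D : Ei} {θ : 𝓞 F}

/-- the cube root of unity in `K` -/
def om : K := ((j w : 𝓞 K) : K)

lemma om_cube : (om j) ^ 3 = 1 := by
  unfold om
  have h : (j w) ^ 3 = 1 := by rw [← map_pow, w_cube, map_one]
  have := congrArg (algebraMap (𝓞 K) K) h
  rw [map_pow, map_one] at this
  exact this

lemma w_ne_one : (w : Ei) ≠ 1 := by decide

lemma om_ne : om j ≠ 1 := by
  unfold om
  intro h
  have h1 : j w = 1 := by
    apply RingOfIntegers.ext
    rw [h]
    rfl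
  apply w_ne_one
  apply j.injective
  rw [h1, map_one]

lemma om_prim : IsPrimitiveRoot (om j) 3 := by
  rw [IsPrimitiveRoot.iff_orderOf]
  exact orderOf_eq_prime (om_cube j) (om_ne j)

lemma dD_ne (h : Cub j D θ) (b : K) : b ^ 3 ≠ ((j D : 𝓞 K) : K) := by
  intro hb
  have h1 : IsIntegral (𝓞 K) (b ^ 3) := by
    rw [hb]
    exact isIntegral_algebraMap
  have h2 : IsIntegral (𝓞 K) b := IsIntegral.of_pow (by norm_num) h1
  obtain ⟨y, hy⟩ := (IsIntegrallyClosed.isIntegral_iff (R := 𝓞 K) (K := K)).1 h2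
  apply h.ncube (j.symm y)
  apply j.injective
  rw [map_pow, j.apply_symm_apply]
  apply RingOfIntegers.ext
  rw [← hb, ← hy]
  simp

lemma irr (h : Cub j D θ) : Irreducible (X ^ 3 - C ((j D : 𝓞 K) : K)) :=
  X_pow_sub_C_irreducible_of_prime Nat.prime_three (dD_ne j h)

lemma cubeF (h : Cub j D θ) : ((θ : F)) ^ 3 = algebraMap K F ((j D : 𝓞 K) : K) := by
  have := congrArg (algebraMap (𝓞 F) F) h.cube
  rw [map_pow] at this
  exact this

lemma top (h : Cub j D θ) : K⟮(θ : F)⟯ = ⊤ := by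
  rw [Field.primitive_element_iff_minpoly_natDegree_eq, h.deg]
  rw [← minpoly.eq_of_irreducible_of_monic (irr j h)]
  · exact natDegree_X_pow_sub_C
  · simp [cubeF j h]
  · exact monic_X_pow_sub_C _ (by norm_num)

include j in
lemma primN : (primitiveRoots 3 K).Nonempty :=
  ⟨om j, (mem_primitiveRoots (by norm_num)).2 (om_prim j)⟩

lemma spl (h : Cub j D θ) : IsSplittingField K F (X ^ 3 - C ((j D : 𝓞 K) : K)) := by
  have h1 := isSplittingField_X_pow_sub_C_of_root_adjoin_eq_top (K := K) (L := F)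
    (a := ((j D : 𝓞 K) : K)) (α := (θ : F)) (by rw [h.deg]; exact primN j)
    (by rw [h.deg]; exact cubeF j h) (top j h)
  rwa [h.deg] at h1

lemma gal' (h : Cub j D θ) : IsGalois K F :=
  letI := spl j h
  isGalois_of_isSplittingField_X_pow_sub_C (primN j) (irr j h) F

/-- the isomorphism of the Galois group -/
noncomputable def eq3 (h : Cub j D θ) : (F ≃ₐ[K] F) ≃* Multiplicative (ZMod 3) :=
  letI := spl j h
  autEquivZmod (irr j h) F (om_prim j)

/-- the generator -/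
noncomputable def sg (h : Cub j D θ) : F ≃ₐ[K] F := (eq3 j h).symm (Multiplicative.ofAdd 1)

lemma sg_pow (h : Cub j D θ) (c : ℕ) :
    (sg j h) ^ c = (eq3 j h).symm (Multiplicative.ofAdd (c : ZMod 3)) := by
  unfold sg
  rw [← map_pow, ← ofAdd_nsmul]
  simp

lemma sg_three (h : Cub j D θ) : (sg j h) ^ 3 = 1 := by
  rw [sg_pow]
  have : ((3 : ℕ) : ZMod 3) = 0 := by decide
  rw [this, ofAdd_zero, map_one]

lemma sg_apply (h : Cub j D θ) (c : ℕ) :
    ((sg j h) ^ c) (θ : F) = algebraMap K F (om j) ^ c * (θ : F) := by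
  rw [sg_pow]
  let _ := spl j h
  unfold eq3
  rw [autEquivZmod_symm_apply_natCast (irr j h) F (cubeF j h) (om_prim j) c, Algebra.smul_def,
    map_pow]

lemma sg_all (h : Cub j D θ) (g : F ≃ₐ[K] F) : ∃ c : ZMod 3, g = (sg j h) ^ c.val := by
  refine ⟨Multiplicative.toAdd (eq3 j h g), ?_⟩
  rw [sg_pow]
  rw [ZMod.natCast_val, ZMod.cast_id, ofAdd_toAdd, MulEquiv.symm_apply_apply]

/-- `ω` in `𝓞 F` -/
def wF : 𝓞 F := algebraMap (𝓞 K) (𝓞 F) (j w)

lemma sg_smul (h : Cub j D θ) (c : ℕ) :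
    ((sg j h) ^ c • θ : 𝓞 F) = (wF (F := F) j) ^ c * θ := by
  apply RingOfIntegers.ext
  have h1 : (((sg j h) ^ c • θ : 𝓞 F) : F) = ((sg j h) ^ c) (θ : F) := rfl
  rw [h1, sg_apply]
  have h2 : algebraMap (𝓞 F) F (wF (F := F) j) = algebraMap K F (om j) := rfl
  show _ = algebraMap (𝓞 F) F (wF j ^ c * θ)
  rw [map_mul, map_pow, h2]

lemma th_ne (h : Cub j D θ) : (θ : F) ≠ 0 := by
  intro h0
  have h1 := cubeF j h
  rw [h0, zero_pow (by norm_num)] at h1
  have h2 : ((j D : 𝓞 K) : K) = 0 := ((map_eq_zero_iff _ (algebraMap K F).injective).1 h1.symm)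
  apply h.ne0
  apply j.injective
  rw [map_zero]
  exact RingOfIntegers.ext h2

lemma sg_ne (h : Cub j D θ) : sg j h ≠ 1 := by
  intro h1
  have h2 := sg_apply j h 1
  rw [pow_one, pow_one, h1] at h2
  have h3 : (θ : F) = algebraMap K F (om j) * (θ : F) := h2
  have h4 : algebraMap K F (om j) = 1 := by
    have := th_ne j h
    field_simp at h3
    exact h3.symm
  apply om_ne j
  exact (algebraMap K F).injective (by rw [h4, map_one])

/-- differences of powers of `ω` divide `3` -/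
lemma diff_dvd : ∀ a b : ZMod 3, a ≠ b → (w ^ a.val - w ^ b.val : Ei) ∣ 3 := by
  intro a b hab
  have : (w ^ a.val - w ^ b.val : Ei) * star (w ^ a.val - w ^ b.val) = 3 := by
    revert a b
    decide
  exact ⟨_, this.symm⟩

lemma unr (h : Cub j D θ) (v : HeightOneSpectrum (𝓞 F))
    (hv : algebraMap (𝓞 K) (𝓞 F) (j (3 * D)) ∉ v.asIdeal) (g : F ≃ₐ[K] F)
    (hg : ∀ x : 𝓞 F, g • x - x ∈ v.asIdeal) : g = 1 := by
  obtain ⟨c, rfl⟩ := sg_all j h g
  have hp := v.isPrime
  by_cases hc : c = 0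
  · subst hc
    simp
  · exfalso
    have h1 := hg θ
    rw [sg_smul, ← sub_one_mul] at h1
    rcases hp.mem_or_mem h1 with h2 | h2
    · apply hv
      have h3 : (w ^ c.val - w ^ (0 : ZMod 3).val : Ei) ∣ 3 * D :=
        dvd_mul_of_dvd_left (diff_dvd c 0 hc) D
      obtain ⟨e, he⟩ := h3
      rw [he, map_mul, map_mul]
      apply Ideal.mul_mem_right
      convert h2 using 1
      simp [wF, map_sub, map_pow]
    · apply hv
      have h3 := h.cube
      rw [map_mul, map_mul, ← h3]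
      exact Ideal.mul_mem_left _ _ (Ideal.pow_mem_of_mem _ h2 3 (by norm_num))

instance comm_smul : SMulCommClass (F ≃ₐ[K] F) (𝓞 K) (𝓞 F) := by
  refine ⟨fun g a x => ?_⟩
  apply RingOfIntegers.ext
  rw [Algebra.smul_def, Algebra.smul_def]
  show g (algebraMap (𝓞 F) F (algebraMap (𝓞 K) (𝓞 F) a * x)) =
    algebraMap (𝓞 F) F (algebraMap (𝓞 K) (𝓞 F) a * (g • x))
  rw [map_mul, map_mul, map_mul]
  have h1 : algebraMap (𝓞 F) F (algebraMap (𝓞 K) (𝓞 F) a) = algebraMap K F (a : K) := rfl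
  rw [h1, AlgEquiv.commutes]
  rfl

lemma under_eq {α : Ei} (hα : Prime α) (v : HeightOneSpectrum (𝓞 F))
    (hv : algebraMap (𝓞 K) (𝓞 F) (j α) ∈ v.asIdeal) :
    v.asIdeal.under (𝓞 K) = Ideal.span {j α} := by
  have hp : Prime (j α) := (MulEquiv.prime_iff j.toMulEquiv).2 hα
  have h1 : (Ideal.span {j α}).IsPrime := (Ideal.span_singleton_prime hp.ne_zero).2 hp
  have h2 : (Ideal.span {j α}).IsMaximal := h1.isMaximal (by simp [hp.ne_zero])
  have h3 : Ideal.span {j α} ≤ v.asIdeal.under (𝓞 K) := by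
    rw [Ideal.span_singleton_le_iff_mem]
    exact hv
  have hvp := v.isPrime
  have h4 : (v.asIdeal.under (𝓞 K)).IsPrime := inferInstance
  exact (h2.eq_of_le h4.ne_top h3).symm

lemma mem_iff {α : Ei} (hα : Prime α) (v : HeightOneSpectrum (𝓞 F))
    (hv : algebraMap (𝓞 K) (𝓞 F) (j α) ∈ v.asIdeal) (x : Ei) :
    algebraMap (𝓞 K) (𝓞 F) (j x) ∈ v.asIdeal ↔ α ∣ x := by
  have h1 := under_eq j hα v hv
  have h2 : algebraMap (𝓞 K) (𝓞 F) (j x) ∈ v.asIdeal ↔ j x ∈ v.asIdeal.under (𝓞 K) := Iff.rfl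
  rw [h2, h1, Ideal.mem_span_singleton]
  exact map_dvd_iff j

open Pool.Agent.Y715.T.Rec (FF fld ftp card_FF' mw) in
lemma card_eq {α : Ei} (hα : Prime α) (h3 : ¬ α ∣ 3) :
    Nat.card (𝓞 K ⧸ Ideal.span {j α}) = 3 * nn α + 1 := by
  have h1 : Nat.card (𝓞 K ⧸ Ideal.span {j α}) = Nat.card (FF α) := by
    symm
    apply Nat.card_congr
    exact (Ideal.quotientEquiv (Ideal.span {α}) (Ideal.span {j α}) j
      (by rw [Ideal.map_span, Set.image_singleton]; rfl)).toEquiv
  rw [h1]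
  let _ := fld hα
  let _ := ftp hα
  have hc : Fintype.card (FF α) = (nr α).natAbs := card_FF' hα
  have hm := Pool.Agent.Y715.T.Cub.card_mod (mw α) (Pool.Agent.Y715.T.RecG.mk_three h3)
  have hpos : 0 < Fintype.card (FF α) := Fintype.card_pos
  rw [Nat.card_eq_fintype_card]
  unfold nn
  rw [← hc]
  omega

lemma frob (h : Cub j D θ) {α : Ei} (hα : Prime α) (h3 : ¬ α ∣ 3) (hD : ¬ α ∣ D)
    (v : HeightOneSpectrum (𝓞 F)) (hv : algebraMap (𝓞 K) (𝓞 F) (j α) ∈ v.asIdeal) (x : 𝓞 F) :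
    ((sg j h) ^ (cs α D).val) • x - x ^ Nat.card (𝓞 K ⧸ Ideal.span {j α}) ∈ v.asIdeal := by
  have hg := gal' j h
  have hp := v.isPrime
  have hfin : Finite (𝓞 F ⧸ v.asIdeal) := Ideal.finiteQuotientOfFreeOfNeBot _ v.ne_bot
  obtain ⟨φ, hφ⟩ := IsArithFrobAt.exists_of_isInvariant (𝓞 K) (F ≃ₐ[K] F) v.asIdeal
  have hφ' : ∀ y : 𝓞 F, φ • y - y ^ Nat.card (𝓞 K ⧸ Ideal.span {j α}) ∈ v.asIdeal := by
    intro y
    have := hφ y
    rw [under_eq j hα v hv] at this
    exact this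
  obtain ⟨c, hc⟩ := sg_all j h φ
  have hcc : c = cs α D := by
    by_contra hne
    have h1 := hφ' θ
    rw [hc, sg_smul, card_eq j hα h3, pow_succ, pow_mul, h.cube, ← sub_mul] at h1
    rcases hp.mem_or_mem h1 with h2 | h2
    · have h4 : α ∣ w ^ c.val - D ^ nn α := by
        rw [← mem_iff j hα v hv]
        convert h2 using 1
        simp [wF, map_sub, map_pow]
      have h5 := Pool.Agent.Y715.T.RecG.cs_spec hα h3 hD
      have h6 : α ∣ w ^ c.val - w ^ (cs α D).val := by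
        have := dvd_add h4 h5
        rwa [sub_add_sub_cancel] at this
      exact h3 (h6.trans (diff_dvd _ _ hne))
    · apply hD
      rw [← mem_iff j hα v hv, ← h.cube]
      exact Ideal.pow_mem_of_mem _ h2 3 (by norm_num)
  rw [← hcc, ← hc]
  exact hφ' x

end basic

theorem gal : Pool.Agent.Y696.CTE.S_GAL := by
  intro K F _ _ _ _ _ j D θ h
  refine ⟨gal' j h, sg j h, sg_three j h, sg_ne j h, sg_all j h, ?_, ?_, ?_⟩
  · have := sg_smul j h 1
    rw [pow_one, pow_one] at this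
    exact this
  · intro v hv g hg
    exact unr j h v hv g hg
  · intro α hα h3 hD v hv x
    exact frob j h hα h3 hD v hv x

end Pool.Agent.Y983.CTE

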